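import Mathlib

/-!
Real characters: growth of `S(N) = ∑_{n ≤ N} r(n)/n`, `r = 1 * χ`.
-/

namespace Pool.Agent.H24.UM

open Finset ArithmeticFunction

/-- A real character: completely multiplicative with values in `{0, 1, -1}` and all sums over
intervals bounded by `M`. -/
structure RChar (χ : ℕ → ℝ) (M : ℝ) : Prop where
  zero : χ 0 = 0
  one : χ 1 = 1
  mul : ∀ m n, χ (m*n) = χ m * χ n
  val : ∀ n, χ n = 0 ∨ χ n = 1 ∨ χ n = -1
  sum : ∀ a b, |∑ n ∈ Ico a b, χ n| ≤ M
  M1 : 1 ≤ M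

/-- Abel summation -/
lemma abel_identity (a b : ℕ → ℝ) (M : ℕ) : ∀ N, M ≤ N →
    ∑ i ∈ Ico M N, b i * a i = b N * ∑ i ∈ Ico M N, a i +
      ∑ i ∈ Ico M N, (b i - b (i+1)) * ∑ j ∈ Ico M (i+1), a j := by
  intro N hN
  induction N, hN using Nat.le_induction with
  | base => simp
  | succ n hn ih =>
    rw [Finset.sum_Ico_succ_top hn, ih, Finset.sum_Ico_succ_top hn, Finset.sum_Ico_succ_top hn,
      Finset.sum_Ico_succ_top hn]
    ring

lemma abel_bound (a b : ℕ → ℝ) (M N : ℕ) (B : ℝ) (hN : M ≤ N)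
    (hb : ∀ n, M ≤ n → n < N → b (n+1) ≤ b n) (hb0 : 0 ≤ b N)
    (hA : ∀ k, |∑ i ∈ Ico M k, a i| ≤ B) :
    |∑ i ∈ Ico M N, b i * a i| ≤ B * b M := by
  rw [abel_identity a b M N hN]
  have h1 : |b N * ∑ i ∈ Ico M N, a i| ≤ b N * B := by
    rw [abs_mul, abs_of_nonneg hb0]
    exact mul_le_mul_of_nonneg_left (hA N) hb0
  have h2 : |∑ i ∈ Ico M N, (b i - b (i+1)) * ∑ j ∈ Ico M (i+1), a j| ≤
      ∑ i ∈ Ico M N, (b i - b (i+1)) * B := by
    refine (abs_sum_le_sum_abs _ _).trans (Finset.sum_le_sum fun i hi => ?_)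
    have hi' := Finset.mem_Ico.1 hi
    have h0 : 0 ≤ b i - b (i+1) := sub_nonneg.2 (hb i hi'.1 hi'.2)
    rw [abs_mul, abs_of_nonneg h0]
    exact mul_le_mul_of_nonneg_left (hA _) h0
  have h3 : ∑ i ∈ Ico M N, (b i - b (i+1)) = b M - b N := by
    have : ∀ N, M ≤ N → ∑ i ∈ Ico M N, (b i - b (i+1)) = b M - b N := by
      intro N hN
      induction N, hN using Nat.le_induction with
      | base => simp
      | succ n hn ih => rw [Finset.sum_Ico_succ_top hn, ih]; ring
    exact this N hN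
  rw [← Finset.sum_mul, h3] at h2
  refine (abs_add_le _ _).trans ((add_le_add h1 h2).trans (le_of_eq ?_))
  ring

/-- the harmonic sum -/
noncomputable def HH (n : ℕ) : ℝ := ∑ m ∈ Ioc 0 n, (1:ℝ)/m

lemma HH_eq (n : ℕ) : HH n = harmonic n := by
  unfold HH
  rw [harmonic_eq_sum_Icc]
  push_cast
  refine sum_congr rfl fun m _ => ?_
  rw [one_div]

lemma HH_mono {m n : ℕ} (h : m ≤ n) : HH m ≤ HH n := by
  unfold HH
  exact sum_le_sum_of_subset_of_nonneg (Ioc_subset_Ioc_right h) fun _ _ _ => by positivity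

lemma HH_nonneg (n : ℕ) : 0 ≤ HH n := sum_nonneg fun _ _ => by positivity

lemma HH_le {n : ℕ} : HH n ≤ 1 + Real.log n := by
  rw [HH_eq]; exact harmonic_le_one_add_log n

/-- Euler's constant -/
noncomputable def ga : ℝ := Real.eulerMascheroniConstant

lemma harm (N d : ℕ) (hd : 0 < d) (hdN : d ≤ N) :
    |HH (N/d) - (Real.log N - Real.log d + ga)| ≤ 2 * d / N := by
  set n := N / d with hn
  have hn1 : 1 ≤ n := (Nat.one_le_div_iff hd).mpr hdN
  have hd' : (0:ℝ) < d := by exact_mod_cast hd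
  have hN' : (0:ℝ) < N := by exact_mod_cast (by omega : 0 < N)
  have hn' : (0:ℝ) < n := by exact_mod_cast hn1
  have h1 : (n:ℝ) ≤ N / d := Nat.cast_div_le
  have h2 : (N:ℝ) / d < n + 1 := by
    rw [div_lt_iff₀ hd']
    have := Nat.lt_mul_div_succ N hd
    have h3 : (N:ℝ) < ((d * (N / d + 1) : ℕ) : ℝ) := by exact_mod_cast this
    push_cast at h3
    rw [hn]
    linarith
  have hlog : Real.log N - Real.log d = Real.log (N / d) := by
    rw [Real.log_div hN'.ne' hd'.ne']
  have hND : (0:ℝ) < N / d := by positivity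
  have l1 : Real.log n ≤ Real.log (N/d) := Real.log_le_log hn' h1
  have l2 : Real.log (N/d) ≤ Real.log (n+1) := Real.log_le_log hND h2.le
  have e1 := Real.eulerMascheroniSeq_lt_eulerMascheroniConstant n
  have e2 := Real.eulerMascheroniConstant_lt_eulerMascheroniSeq' n
  unfold Real.eulerMascheroniSeq at e1
  unfold Real.eulerMascheroniSeq' at e2
  rw [if_neg (by omega : ¬ n = 0)] at e2
  rw [← HH_eq] at e1 e2
  have h3 : Real.log (n+1) - Real.log n ≤ 1 / n := by
    rw [← Real.log_div (by positivity) (by positivity)]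
    have h4 : ((n:ℝ)+1)/n = 1 + 1/n := by field_simp
    rw [h4]
    have := Real.log_le_sub_one_of_pos (show (0:ℝ) < 1 + 1/n by positivity)
    linarith
  have h5 : (1:ℝ)/n ≤ 2 * d / N := by
    rw [div_le_div_iff₀ hn' hN']
    have h6 : (N:ℝ) / d ≤ 2 * n := by
      have : (1:ℝ) ≤ n := by exact_mod_cast hn1
      linarith
    rw [div_le_iff₀ hd'] at h6
    linarith
  rw [hlog, abs_le]
  unfold ga
  constructor <;> linarith

/-- `r = 1 * χ` -/
noncomputable def rr (χ : ℕ → ℝ) (n : ℕ) : ℝ := ∑ d ∈ n.divisors, χ d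

/-- `S(N)` -/
noncomputable def SN (χ : ℕ → ℝ) (N : ℕ) : ℝ := ∑ n ∈ Ioc 0 N, rr χ n / n

lemma SN_eq (χ : ℕ → ℝ) (N : ℕ) : SN χ N = ∑ d ∈ Ioc 0 N, χ d / d * HH (N/d) := by
  let F : ArithmeticFunction ℝ := ⟨fun n => χ n / n, by simp⟩
  let G : ArithmeticFunction ℝ := ⟨fun n => 1 / n, by simp⟩
  have h := sum_Ioc_mul_eq_sum_sum F G N
  have h1 : ∀ n ∈ Ioc 0 N, (F * G) n = rr χ n / n := by
    intro n hn
    rw [mem_Ioc] at hn
    rw [ArithmeticFunction.mul_apply]
    unfold rr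
    rw [sum_div, ← Nat.map_div_right_divisors, sum_map]
    refine sum_congr rfl fun d hd => ?_
    rw [Nat.mem_divisors] at hd
    obtain ⟨e, he⟩ := hd.1
    have hd0 : 0 < d := Nat.pos_of_dvd_of_pos hd.1 hn.1
    change χ d / d * (1 / ((n / d : ℕ) : ℝ)) = _
    have he0 : e ≠ 0 := by rintro rfl; omega
    rw [he, Nat.mul_div_cancel_left _ hd0]
    have hd' : (d:ℝ) ≠ 0 := by exact_mod_cast hd0.ne'
    have he' : (e:ℝ) ≠ 0 := by exact_mod_cast he0
    push_cast
    field_simp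
  unfold SN
  rw [← sum_congr rfl h1, h]
  rfl

variable {χ : ℕ → ℝ} {M : ℝ}

lemma RChar.abs_le (h : RChar χ M) (n : ℕ) : |χ n| ≤ 1 := by
  rcases h.val n with h | h | h <;> rw [h] <;> norm_num

/-- the coefficients of the approximation -/
noncomputable def aD (χ : ℕ → ℝ) (D : ℕ) : ℝ := ∑ d ∈ Ioc 0 D, χ d / d
noncomputable def cD (χ : ℕ → ℝ) (D : ℕ) : ℝ := ∑ d ∈ Ioc 0 D, χ d / d * (ga - Real.log d)

lemma approx (h : RChar χ M) (D N : ℕ) (hD : 0 < D) (hN : D ≤ N) :
    |SN χ N - (aD χ D * Real.log N + cD χ D)| ≤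
      2 * D / N + M * (1 + Real.log N) / D := by
  have hN' : (0:ℝ) < N := by exact_mod_cast (by omega : 0 < N)
  have hD' : (0:ℝ) < D := by exact_mod_cast hD
  have hM := h.M1
  have hsplit : SN χ N = ∑ d ∈ Ioc 0 D, χ d / d * HH (N/d) + ∑ d ∈ Ioc D N, χ d / d * HH (N/d) := by
    rw [SN_eq, ← sum_union]
    · congr 1
      ext d; rw [mem_union, mem_Ioc, mem_Ioc, mem_Ioc]; omega
    · rw [disjoint_left]; intro d hd hd'
      rw [mem_Ioc] at hd hd'; omega
  have h1 : |∑ d ∈ Ioc 0 D, χ d / d * HH (N/d) - (aD χ D * Real.log N + cD χ D)| ≤ 2 * D / N := by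
    have e1 : aD χ D * Real.log N + cD χ D =
        ∑ d ∈ Ioc 0 D, χ d / d * (Real.log N - Real.log d + ga) := by
      unfold aD cD
      rw [sum_mul, ← sum_add_distrib]
      refine sum_congr rfl fun d _ => ?_
      ring
    rw [e1, ← sum_sub_distrib]
    refine (abs_sum_le_sum_abs _ _).trans ?_
    have e2 : ∀ d ∈ Ioc 0 D, |χ d / d * HH (N/d) - χ d / d * (Real.log N - Real.log d + ga)| ≤
        2 / N := by
      intro d hd
      rw [mem_Ioc] at hd
      have hd' : (0:ℝ) < d := by exact_mod_cast hd.1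
      rw [← mul_sub, abs_mul, abs_div, abs_of_pos hd']
      have e3 := harm N d hd.1 (hd.2.trans hN)
      have e4 := h.abs_le d
      calc |χ d| / d * |HH (N/d) - (Real.log N - Real.log d + ga)| ≤
            1 / d * (2 * d / N) := by
            apply mul_le_mul _ e3 (abs_nonneg _) (by positivity)
            exact div_le_div_of_nonneg_right e4 hd'.le
        _ = 2 / N := by field_simp
    refine (sum_le_sum e2).trans ?_
    rw [sum_const, Nat.card_Ioc, nsmul_eq_mul]
    have : ((D - 0 : ℕ) : ℝ) * (2 / N) = 2 * D / N := by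
      rw [Nat.sub_zero]; ring
    rw [this]
  have h2 : |∑ d ∈ Ioc D N, χ d / d * HH (N/d)| ≤ M * (1 + Real.log N) / D := by
    have e1 : ∑ d ∈ Ioc D N, χ d / d * HH (N/d) =
        ∑ d ∈ Ico (D+1) (N+1), (HH (N/d) / d) * χ d := by
      have : Ioc D N = Ico (D+1) (N+1) := by ext d; rw [mem_Ioc, mem_Ico]; omega
      rw [this]
      refine sum_congr rfl fun d _ => ?_
      ring
    rw [e1]
    have e2 := abel_bound χ (fun d => HH (N/d) / d) (D+1) (N+1) M (by omega)
      (by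
        intro n hn _
        have hn0 : (0:ℝ) < n := by exact_mod_cast (by omega : 0 < n)
        have f1 : HH (N/(n+1)) ≤ HH (N/n) := HH_mono (Nat.div_le_div_left (by omega) (by omega))
        have f2 := HH_nonneg (N/(n+1))
        have f3 := HH_nonneg (N/n)
        have f4 : (n:ℝ) ≤ ((n+1:ℕ):ℝ) := by push_cast; linarith
        exact div_le_div₀ f3 f1 hn0 f4)
      (div_nonneg (HH_nonneg _) (by positivity)) (fun k => h.sum _ _)
    refine e2.trans ?_
    have e3 : HH (N/(D+1)) ≤ 1 + Real.log N :=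
      (HH_mono (Nat.div_le_self _ _)).trans HH_le
    have e4 : 0 ≤ 1 + Real.log N := by
      have := Real.log_natCast_nonneg N
      linarith
    have e5 : HH (N/(D+1)) / ((D+1 : ℕ) : ℝ) ≤ (1 + Real.log N) / D := by
      apply div_le_div₀ e4 e3 hD'
      push_cast; linarith
    calc M * (HH (N/(D+1)) / ((D+1 : ℕ) : ℝ)) ≤ M * ((1 + Real.log N) / D) :=
          mul_le_mul_of_nonneg_left e5 (by linarith)
      _ = _ := by ring
  rw [hsplit]
  have e : ∑ d ∈ Ioc 0 D, χ d / d * HH (N/d) + ∑ d ∈ Ioc D N, χ d / d * HH (N/d) -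
      (aD χ D * Real.log N + cD χ D) =
      (∑ d ∈ Ioc 0 D, χ d / d * HH (N/d) - (aD χ D * Real.log N + cD χ D)) +
      ∑ d ∈ Ioc D N, χ d / d * HH (N/d) := by ring
  rw [e]
  exact (abs_add_le _ _).trans (add_le_add h1 h2)

/-- `S(zK) ≤ S(z) (2 + 2 log K / log D)` for `z = D^4` -/
theorem growth (h : RChar χ M) (hS : ∀ N, 1 ≤ N → 1 ≤ SN χ N) (D K : ℕ)
    (hD : 20 * M * (1 + Real.log D) ≤ D) (hK : 1 ≤ K) :
    SN χ (D^4 * K) ≤ SN χ (D^4) * (2 + 2 * (Real.log K / Real.log D)) := by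
  have hM := h.M1
  have hD1 : (1:ℝ) ≤ D := by
    rcases Nat.eq_zero_or_pos D with h0 | h0
    · exfalso
      rw [h0] at hD
      simp at hD
      linarith
    · exact_mod_cast h0
  have hlD0 : 0 ≤ Real.log D := Real.log_nonneg hD1
  have hD20 : (20:ℝ) ≤ D := by nlinarith
  have hDn : 20 ≤ D := by exact_mod_cast hD20
  have hlD : 1 ≤ Real.log D := by
    rw [Real.le_log_iff_exp_le (by linarith)]
    have := Real.exp_one_lt_d9
    linarith
  have hDp : (0:ℝ) < D := by linarith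
  have hlK : 0 ≤ Real.log K := Real.log_nonneg (by exact_mod_cast hK)
  have hKp : (0:ℝ) < K := by exact_mod_cast hK
  have p1 := approx h D (D^2) (by omega) (by nlinarith)
  have p2 := approx h D (D^4) (by omega) (by
    calc D = D^1 := (pow_one D).symm
      _ ≤ D^4 := Nat.pow_le_pow_right (by omega) (by norm_num))
  have p3 := approx h D (D^4*K) (by omega) (by
    calc D = D^1 * 1 := by ring
      _ ≤ D^4*K := Nat.mul_le_mul (Nat.pow_le_pow_right (by omega) (by norm_num)) hK)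
  have q1 := hS (D^2) (Nat.one_le_pow _ _ (by omega))
  have q2 := hS (D^4) (Nat.one_le_pow _ _ (by omega))
  push_cast at p1 p2 p3
  rw [Real.log_pow] at p1 p2
  rw [Real.log_mul (by positivity) (by positivity), Real.log_pow] at p3
  push_cast at p1 p2 p3
  set L := Real.log (D:ℝ) with hL
  set LK := Real.log (K:ℝ) with hLK
  set a := aD χ D with ha
  set c := cD χ D with hc
  set S1 := SN χ (D^2) with hS1
  set S2 := SN χ (D^4) with hS2
  set S3 := SN χ (D^4*K) with hS3
  -- error terms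
  have er1 : 2 * (D:ℝ) / D^2 ≤ 1/10 := by
    have : 2 * (D:ℝ) / D^2 = 2 / D := by field_simp
    rw [this, div_le_div_iff₀ hDp (by norm_num)]; linarith
  have er2 : 2 * (D:ℝ) / D^4 ≤ 1/10 := by
    have : 2 * (D:ℝ) / D^4 = 2 / D * (1 / D^2) := by field_simp
    rw [this]
    have e1 : 2 / (D:ℝ) ≤ 1/10 := by rw [div_le_div_iff₀ hDp (by norm_num)]; linarith
    have e2 : 1 / (D:ℝ)^2 ≤ 1 := by rw [div_le_one (by positivity)]; nlinarith
    have e3 : 0 < 2 / (D:ℝ) := by positivity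
    have e4 : 0 < 1 / (D:ℝ)^2 := by positivity
    nlinarith
  have er3 : 2 * (D:ℝ) / (D^4*K) ≤ 1/10 := by
    refine le_trans ?_ er2
    apply div_le_div_of_nonneg_left (by positivity) (by positivity)
    have : (1:ℝ) ≤ K := by exact_mod_cast hK
    have h4 : (0:ℝ) < (D:ℝ)^4 := by positivity
    nlinarith
  have hML : M * (1 + L) / D ≤ 1/20 := by
    rw [div_le_div_iff₀ hDp (by norm_num)]; linarith
  have er4 : M * (1 + 2 * L) / D ≤ 1/10 := by
    have : M * (1 + 2 * L) / D ≤ 2 * (M * (1 + L) / D) := by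
      rw [← mul_div_assoc]
      apply div_le_div_of_nonneg_right _ hDp.le
      nlinarith
    linarith
  have er5 : M * (1 + 4 * L) / D ≤ 1/5 := by
    have : M * (1 + 4 * L) / D ≤ 4 * (M * (1 + L) / D) := by
      rw [← mul_div_assoc]
      apply div_le_div_of_nonneg_right _ hDp.le
      nlinarith
    linarith
  have er6 : M * (1 + (4 * L + LK)) / D ≤ 1/5 + (1/20) * (LK / L) := by
    have e1 : M * (1 + (4 * L + LK)) / D = M * (1 + 4 * L) / D + (M / D) * LK := by ring
    have e2 : M / D ≤ (1/20) * (1 / L) := by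
      have : M / D * L ≤ 1/20 := by
        have : M / D * L ≤ M * (1 + L) / D := by
          rw [div_mul_eq_mul_div]
          apply div_le_div_of_nonneg_right _ hDp.le
          nlinarith
        linarith
      rw [mul_one_div, le_div_iff₀ (by linarith)]; exact this
    have e3 : (M / D) * LK ≤ (1/20) * (1 / L) * LK := mul_le_mul_of_nonneg_right e2 hlK
    have e4 : (1/20) * (1 / L) * LK = (1/20) * (LK / L) := by ring
    rw [e1]
    linarith
  rw [_root_.abs_le] at p1 p2 p3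
  -- a * 2L ≤ S2
  have h1 : a * (2 * L) ≤ S2 := by
    have e1 := p2.1
    have e2 := p1.2
    have e3 : a * (4 * L) = a * (2 * L) + a * (2 * L) := by ring
    linarith
  have h2 : a * LK ≤ S2 * (LK / L) / 2 := by
    have e1 : a ≤ S2 / (2 * L) := by
      rw [le_div_iff₀ (by linarith)]; exact h1
    have e2 := mul_le_mul_of_nonneg_right e1 hlK
    have e3 : S2 / (2 * L) * LK = S2 * (LK / L) / 2 := by field_simp
    linarith
  have h3 : S3 ≤ S2 + a * LK + (1/10 + 1/10 + 1/5 + 1/5 + (1/20) * (LK / L)) := by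
    have e1 := p3.2
    have e2 := p2.1
    have e3 : a * (4 * L + LK) = a * (4 * L) + a * LK := by ring
    linarith
  have h4 : 0 ≤ LK / L := by positivity
  have h5 := mul_nonneg (show 0 ≤ S2 - 1 by linarith) h4
  have e4 : (S2 - 1) * (LK / L) = S2 * (LK / L) - LK / L := by ring
  have e5 : S2 * (2 + 2 * (LK / L)) = 2 * S2 + 2 * (S2 * (LK / L)) := by ring
  rw [e4] at h5
  rw [e5]
  linarith

end Pool.Agent.H24.UM
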