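import Mathlib
import Pool.Agent.H24.UM.Growth
import Pool.Agent.H41.SF.Mertens

/-!
One-sided uniform bound for `∏ (1 + (1+χ(p))/p)`.
-/

namespace Pool.Agent.H24.UM

open Finset ArithmeticFunction

variable {χ : ℕ → ℝ} {M : ℝ}

/-- `χ` as an arithmetic function -/
def af (χ : ℕ → ℝ) (h : χ 0 = 0) : ArithmeticFunction ℝ := ⟨χ, h⟩

lemma af_mult (h : RChar χ M) : (af χ h.zero).IsMultiplicative := by
  refine ⟨h.one, fun {m n} _ => h.mul m n⟩

lemma rr_eq (h : RChar χ M) (n : ℕ) : rr χ n = ((zeta : ArithmeticFunction ℝ) * af χ h.zero) n := by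
  rw [coe_zeta_mul_apply]
  rfl

lemma rrf_mult (h : RChar χ M) : ((zeta : ArithmeticFunction ℝ) * af χ h.zero).IsMultiplicative :=
  isMultiplicative_zeta.natCast.mul (af_mult h)

lemma rr_one (h : RChar χ M) : rr χ 1 = 1 := by
  rw [rr_eq h]; exact (rrf_mult h).1

lemma rr_mul (h : RChar χ M) {m n : ℕ} (hmn : Nat.Coprime m n) :
    rr χ (m*n) = rr χ m * rr χ n := by
  rw [rr_eq h, rr_eq h, rr_eq h]; exact (rrf_mult h).2 hmn

lemma chi_pow (h : RChar χ M) (p k : ℕ) : χ (p^k) = (χ p)^k := by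
  induction k with
  | zero => simp [h.one]
  | succ k ih => rw [pow_succ, h.mul, ih, pow_succ]

lemma rr_prime (h : RChar χ M) {p : ℕ} (hp : p.Prime) : rr χ p = 1 + χ p := by
  unfold rr
  rw [hp.divisors, sum_pair hp.one_lt.ne, h.one]

lemma rr_nonneg (h : RChar χ M) (n : ℕ) : 0 ≤ rr χ n := by
  induction n using Nat.recOnPosPrimePosCoprime with
  | zero => simp [rr]
  | one => rw [rr_one h]; norm_num
  | prime_pow p k hp hk =>
    unfold rr
    rw [Nat.sum_divisors_prime_pow hp]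
    simp only [chi_pow h]
    rcases h.val p with h1 | h1 | h1
    · rw [h1]
      exact sum_nonneg fun i _ => by positivity
    · rw [h1]
      exact sum_nonneg fun i _ => by positivity
    · rw [h1, neg_one_geom_sum]
      split_ifs <;> norm_num
  | coprime a b _ _ hab iha ihb =>
    rw [rr_mul h hab]
    exact mul_nonneg iha ihb

lemma SN_ge_one (h : RChar χ M) (N : ℕ) (hN : 1 ≤ N) : 1 ≤ SN χ N := by
  unfold SN
  have h1 : (1:ℕ) ∈ Ioc 0 N := by rw [mem_Ioc]; omega
  have h2 := single_le_sum (f := fun n : ℕ => rr χ n / n)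
    (fun n _ => div_nonneg (rr_nonneg h n) (Nat.cast_nonneg n)) h1
  simp only [rr_one h] at h2
  simpa using h2

lemma rr_prod (h : RChar χ M) (T : Finset ℕ) (hT : ∀ p ∈ T, p.Prime) :
    rr χ (∏ p ∈ T, p) = ∏ p ∈ T, (1 + χ p) := by
  rw [rr_eq h, (rrf_mult h).map_prod_of_prime T hT]
  refine prod_congr rfl fun p hp => ?_
  rw [← rr_eq h, rr_prime h (hT p hp)]

open Classical in
/-- the smooth and the rough part -/
lemma smooth_rough (h : RChar χ M) (z K : ℕ) (P : Finset ℕ)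
    (hP : ∀ p ∈ P, p.Prime ∧ z < p) :
    SN χ z * ∑ T ∈ P.powerset.filter (fun T => ∏ p ∈ T, p ≤ K), ∏ p ∈ T, ((1 + χ p) / p) ≤
      SN χ (z * K) := by
  set F := P.powerset.filter (fun T => ∏ p ∈ T, p ≤ K) with hF
  have hT : ∀ T ∈ F, (∀ p ∈ T, p.Prime ∧ z < p) ∧ ∏ p ∈ T, p ≤ K := by
    intro T hT
    rw [hF, mem_filter, mem_powerset] at hT
    exact ⟨fun p hp => hP p (hT.1 hp), hT.2⟩
  have hcop : ∀ m, 0 < m → m ≤ z → ∀ T ∈ F, Nat.Coprime m (∏ p ∈ T, p) := by
    intro m hm hmz T hTF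
    apply Nat.Coprime.prod_right
    intro p hp
    have := (hT T hTF).1 p hp
    rw [Nat.coprime_comm, Nat.Prime.coprime_iff_not_dvd this.1]
    intro hd
    have := Nat.le_of_dvd hm hd
    omega
  unfold SN
  rw [sum_mul_sum, ← sum_product']
  have h1 : ∀ x ∈ Ioc 0 z ×ˢ F, rr χ x.1 / x.1 * ∏ p ∈ x.2, ((1 + χ p) / p) =
      rr χ (x.1 * ∏ p ∈ x.2, p) / ((x.1 * ∏ p ∈ x.2, p : ℕ) : ℝ) := by
    rintro ⟨m, T⟩ hx
    rw [mem_product, mem_Ioc] at hx
    simp only at hx ⊢
    rw [rr_mul h (hcop m hx.1.1 hx.1.2 T hx.2), rr_prod h T (fun p hp => ((hT T hx.2).1 p hp).1),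
      prod_div_distrib]
    push_cast
    rw [div_mul_div_comm]
  rw [sum_congr rfl h1]
  have hinj : Set.InjOn (fun x : ℕ × Finset ℕ => x.1 * ∏ p ∈ x.2, p) (Ioc 0 z ×ˢ F : Finset _) := by
    rintro ⟨m, T⟩ hx ⟨m', T'⟩ hx' he
    rw [mem_coe, mem_product, mem_Ioc] at hx hx'
    simp only at hx hx' he
    have key : ∀ m T, 0 < m → m ≤ z → T ∈ F → T = P.filter (fun p => p ∣ m * ∏ p ∈ T, p) := by
      intro m T hm hmz hTF
      ext p
      rw [mem_filter]
      constructor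
      · intro hp
        refine ⟨?_, Dvd.dvd.mul_left (dvd_prod_of_mem _ hp) _⟩
        rw [hF, mem_filter, mem_powerset] at hTF
        exact hTF.1 hp
      · rintro ⟨hpP, hd⟩
        obtain ⟨hpp, hpz⟩ := hP p hpP
        rcases hpp.dvd_mul.mp hd with h2 | h2
        · have := Nat.le_of_dvd hm h2
          omega
        · rw [hpp.prime.dvd_finsetProd_iff] at h2
          obtain ⟨q, hq, hpq⟩ := h2
          have := (Nat.prime_dvd_prime_iff_eq hpp ((hT T hTF).1 q hq).1).mp hpq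
          rw [this]; exact hq
    have hTT : T = T' := by
      rw [key m T hx.1.1 hx.1.2 hx.2, key m' T' hx'.1.1 hx'.1.2 hx'.2, he]
    subst hTT
    have h0 : 0 < ∏ p ∈ T, p := prod_pos fun p hp => ((hT T hx.2).1 p hp).1.pos
    have := Nat.eq_of_mul_eq_mul_right h0 he
    rw [this]
  rw [← sum_image (f := fun n : ℕ => rr χ n / (n:ℝ)) (g := fun x : ℕ × Finset ℕ =>
    x.1 * ∏ p ∈ x.2, p) hinj]
  refine sum_le_sum_of_subset_of_nonneg ?_ (fun n _ _ =>
    div_nonneg (rr_nonneg h n) (Nat.cast_nonneg n))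
  intro n hn
  rw [mem_image] at hn
  obtain ⟨⟨m, T⟩, hx, rfl⟩ := hn
  rw [mem_product, mem_Ioc] at hx
  simp only at hx ⊢
  rw [mem_Ioc]
  have h0 : 0 < ∏ p ∈ T, p := prod_pos fun p hp => ((hT T hx.2).1 p hp).1.pos
  exact ⟨Nat.mul_pos hx.1.1 h0, Nat.mul_le_mul hx.1.2 (hT T hx.2).2⟩

/-- Mertens' upper bound for primes -/
lemma mertens_primes : ∃ C : ℝ, 0 ≤ C ∧ ∀ (y : ℕ) (P : Finset ℕ), 1 ≤ y →
    (∀ p ∈ P, p.Prime ∧ p ≤ y) → ∑ p ∈ P, Real.log p / p ≤ Real.log y + C := by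
  obtain ⟨C, hC, h⟩ := Pool.Agent.H41.SF.mertens
  refine ⟨C, hC, fun y P hy hP => ?_⟩
  have h1 := (abs_le.mp (h y hy)).2
  have h2 : ∑ p ∈ P, Real.log p / p ≤ ∑ n ∈ Ioc 0 y, vonMangoldt n / n := by
    have h3 : ∑ p ∈ P, Real.log p / p = ∑ p ∈ P, vonMangoldt p / p := by
      refine sum_congr rfl fun p hp => ?_
      rw [vonMangoldt_apply_prime (hP p hp).1]
    rw [h3]
    refine sum_le_sum_of_subset_of_nonneg ?_ (fun n _ _ =>
      div_nonneg vonMangoldt_nonneg (Nat.cast_nonneg n))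
    intro p hp
    rw [mem_Ioc]
    exact ⟨(hP p hp).1.pos, (hP p hp).2⟩
  linarith

lemma exp_le_two {u : ℝ} (h0 : 0 ≤ u) (h1 : u ≤ 1) : Real.exp u ≤ 1 + 2 * u := by
  have h := Real.abs_exp_sub_one_sub_id_le (show |u| ≤ 1 by rw [abs_of_nonneg h0]; exact h1)
  have := (abs_le.mp h).2
  nlinarith

open Classical in
theorem prod_bound : ∃ C : ℝ, 0 < C ∧ ∀ (χ : ℕ → ℝ) (M : ℝ), RChar χ M → ∀ (D y : ℕ) (P : Finset ℕ),
    20 * M * (1 + Real.log D) ≤ D → D ≤ y → (∀ p ∈ P, p.Prime ∧ D^4 < p ∧ p ≤ y) →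
    ∏ p ∈ P, (1 + (1 + χ p) / p) ≤ C * (Real.log y / Real.log D) := by
  obtain ⟨C0, hC0, hm⟩ := mertens_primes
  obtain ⟨B, hB⟩ := exists_nat_gt (4 * (1 + C0) + 1)
  refine ⟨4 + 4 * B, by positivity, fun χ M h D y P hD hDy hP => ?_⟩
  have hM := h.M1
  have hD1 : (1:ℝ) ≤ D := by
    rcases Nat.eq_zero_or_pos D with h0 | h0
    · exfalso
      rw [h0] at hD
      simp at hD
      linarith
    · exact_mod_cast h0
  have hlD0 : 0 ≤ Real.log D := Real.log_nonneg hD1
  have hD20 : (20:ℝ) ≤ D := by nlinarith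
  have hlD : 1 ≤ Real.log D := by
    rw [Real.le_log_iff_exp_le (by linarith)]
    have := Real.exp_one_lt_d9
    linarith
  have hy20 : (20:ℝ) ≤ y := hD20.trans (by exact_mod_cast hDy)
  have hlDy : Real.log D ≤ Real.log y := Real.log_le_log (by linarith) (by exact_mod_cast hDy)
  have hly : 1 ≤ Real.log y := hlD.trans hlDy
  have hy0 : (0:ℝ) < y := by linarith
  set g : ℕ → ℝ := fun p => (1 + χ p) / p with hg
  have hg0 : ∀ p ∈ P, 0 ≤ g p := by
    intro p _
    rw [hg]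
    apply div_nonneg _ (Nat.cast_nonneg p)
    rcases h.val p with h1 | h1 | h1 <;> rw [h1] <;> norm_num
  have hgp : ∀ p ∈ P, g p ≤ 2 / p := by
    intro p _
    rw [hg]
    apply div_le_div_of_nonneg_right _ (Nat.cast_nonneg p)
    rcases h.val p with h1 | h1 | h1 <;> rw [h1] <;> norm_num
  set K := y^B with hK
  have hK1 : 1 ≤ K := Nat.one_le_pow _ _ (by
    have : (0:ℝ) < y := hy0
    exact_mod_cast this)
  set Pi := ∏ p ∈ P, (1 + g p) with hPi
  have hPi0 : 0 < Pi := prod_pos fun p hp => by have := hg0 p hp; linarith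
  set σ := 1 / Real.log y with hσ
  have hσ0 : 0 < σ := by positivity
  -- expansion
  have e1 : Pi = ∑ T ∈ P.powerset, ∏ p ∈ T, g p := by rw [hPi, prod_one_add]
  have e2 : Pi = ∑ T ∈ P.powerset.filter (fun T => ∏ p ∈ T, p ≤ K), ∏ p ∈ T, g p +
      ∑ T ∈ P.powerset.filter (fun T => ¬ ∏ p ∈ T, p ≤ K), ∏ p ∈ T, g p := by
    rw [sum_filter_add_sum_filter_not]; exact e1
  -- Rankin
  set q : ℕ → ℝ := fun p => Real.exp (σ * Real.log p) with hq
  have hq1 : ∀ p ∈ P, q p ≤ 1 + 2 * (σ * Real.log p) := by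
    intro p hp
    obtain ⟨hpp, hp1, hp2⟩ := hP p hp
    have hp0 : (1:ℝ) ≤ p := by exact_mod_cast hpp.one_lt.le
    apply exp_le_two
    · exact mul_nonneg hσ0.le (Real.log_nonneg hp0)
    · rw [hσ, one_div, inv_mul_le_iff₀ (by linarith), mul_one]
      exact Real.log_le_log (by linarith) (by exact_mod_cast hp2)
  have hq0 : ∀ p, 0 < q p := fun p => Real.exp_pos _
  have e3 : ∑ T ∈ P.powerset.filter (fun T => ¬ ∏ p ∈ T, p ≤ K), ∏ p ∈ T, g p ≤
      Real.exp (-B) * ∏ p ∈ P, (1 + g p * q p) := by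
    rw [prod_one_add, mul_sum]
    refine le_trans (sum_le_sum (g := fun T => Real.exp (-B) * ∏ p ∈ T, (g p * q p)) ?_) ?_
    · intro T hT
      rw [mem_filter, mem_powerset] at hT
      obtain ⟨hTP, hTK⟩ := hT
      rw [prod_mul_distrib]
      have h0 : 0 ≤ ∏ p ∈ T, g p := prod_nonneg fun p hp => hg0 p (hTP hp)
      have h1 : Real.exp B ≤ ∏ p ∈ T, q p := by
        rw [hq]
        simp only
        rw [← Real.exp_sum, Real.exp_le_exp, ← mul_sum, ← Real.log_prod (fun p hp => by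
          have := (hP p (hTP hp)).1.pos
          exact_mod_cast this.ne')]
        push Not at hTK
        have h2 : (K:ℝ) ≤ ∏ p ∈ T, (p:ℝ) := by
          have : (K:ℝ) ≤ ((∏ p ∈ T, p : ℕ) : ℝ) := by exact_mod_cast hTK.le
          push_cast at this
          exact this
        have h3 : Real.log K ≤ Real.log (∏ p ∈ T, (p:ℝ)) :=
          Real.log_le_log (by exact_mod_cast hK1) h2
        have h4 : Real.log K = B * Real.log y := by
          rw [hK]; push_cast; rw [Real.log_pow]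
        rw [h4] at h3
        have h5 := mul_le_mul_of_nonneg_left h3 hσ0.le
        have h6 : σ * (B * Real.log y) = B := by
          rw [hσ]; field_simp
        linarith
      have h2 : 1 ≤ Real.exp (-B) * ∏ p ∈ T, q p := by
        have := mul_le_mul_of_nonneg_left h1 (Real.exp_pos (-(B:ℝ))).le
        rw [← Real.exp_add] at this
        simpa using this
      calc ∏ p ∈ T, g p = 1 * ∏ p ∈ T, g p := (one_mul _).symm
        _ ≤ (Real.exp (-B) * ∏ p ∈ T, q p) * ∏ p ∈ T, g p := mul_le_mul_of_nonneg_right h2 h0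
        _ = _ := by ring
    · refine sum_le_sum_of_subset_of_nonneg (filter_subset _ _) (fun T hT _ => ?_)
      rw [mem_powerset] at hT
      refine mul_nonneg (Real.exp_pos _).le (prod_nonneg fun p hp => ?_)
      exact mul_nonneg (hg0 p (hT hp)) (hq0 p).le
  have e4 : ∏ p ∈ P, (1 + g p * q p) ≤ Pi * Real.exp (4 * (1 + C0)) := by
    have h1 : ∏ p ∈ P, (1 + g p * q p) ≤
        ∏ p ∈ P, ((1 + g p) * Real.exp (4 * σ * (Real.log p / p))) := by
      refine prod_le_prod (fun p hp => ?_) (fun p hp => ?_)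
      · have := mul_nonneg (hg0 p hp) (hq0 p).le
        linarith
      · have a1 := hg0 p hp
        have a2 := hgp p hp
        have a3 := hq1 p hp
        have hpp := (hP p hp).1
        have hp0 : (1:ℝ) ≤ p := by exact_mod_cast hpp.one_lt.le
        have hlp : 0 ≤ Real.log p := Real.log_nonneg hp0
        have a4 : g p * q p ≤ g p + 4 * σ * (Real.log p / p) := by
          have b1 : g p * q p ≤ g p * (1 + 2 * (σ * Real.log p)) := mul_le_mul_of_nonneg_left a3 a1
          have b2 : g p * (2 * (σ * Real.log p)) ≤ 2 / p * (2 * (σ * Real.log p)) :=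
            mul_le_mul_of_nonneg_right a2 (by positivity)
          have b3 : 2 / (p:ℝ) * (2 * (σ * Real.log p)) = 4 * σ * (Real.log p / p) := by ring
          nlinarith
        set u := 4 * σ * (Real.log p / p) with hu
        have hu0 : 0 ≤ u := by positivity
        have a5 := Real.add_one_le_exp u
        nlinarith [mul_nonneg a1 hu0]
    refine h1.trans ?_
    rw [prod_mul_distrib, ← Real.exp_sum, ← mul_sum]
    apply mul_le_mul_of_nonneg_left _ hPi0.le
    rw [Real.exp_le_exp]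
    have h2 := hm y P (by
      have : (1:ℝ) ≤ y := by linarith
      exact_mod_cast this) (fun p hp => ⟨(hP p hp).1, (hP p hp).2.2⟩)
    have h3 := mul_le_mul_of_nonneg_left h2 (show 0 ≤ 4 * σ by positivity)
    refine h3.trans ?_
    have h4 : 4 * σ * (Real.log y + C0) = 4 * (1 + C0 / Real.log y) := by
      rw [hσ]; field_simp
    rw [h4]
    have h5 : C0 / Real.log y ≤ C0 := div_le_self hC0 hly
    linarith
  have e5 : Real.exp (-B) * Real.exp (4 * (1 + C0)) ≤ 1/2 := by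
    rw [← Real.exp_add]
    have h1 : -(B:ℝ) + 4 * (1 + C0) ≤ -1 := by linarith
    refine (Real.exp_le_exp.mpr h1).trans ?_
    rw [Real.exp_neg, ← one_div, div_le_div_iff₀ (Real.exp_pos 1) (by norm_num)]
    have := Real.add_one_le_exp (1:ℝ)
    linarith
  have e6 : Pi ≤ 2 * ∑ T ∈ P.powerset.filter (fun T => ∏ p ∈ T, p ≤ K), ∏ p ∈ T, g p := by
    have h1 : Real.exp (-B) * ∏ p ∈ P, (1 + g p * q p) ≤ 1/2 * Pi := by
      calc Real.exp (-B) * ∏ p ∈ P, (1 + g p * q p) ≤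
            Real.exp (-B) * (Pi * Real.exp (4 * (1 + C0))) :=
            mul_le_mul_of_nonneg_left e4 (Real.exp_pos _).le
        _ = (Real.exp (-B) * Real.exp (4 * (1 + C0))) * Pi := by ring
        _ ≤ 1/2 * Pi := mul_le_mul_of_nonneg_right e5 hPi0.le
    linarith
  have e7 := smooth_rough h (D^4) K P (fun p hp => ⟨(hP p hp).1, (hP p hp).2.1⟩)
  have e8 := growth h (fun N hN => SN_ge_one h N hN) D K hD hK1
  have hDn : 1 ≤ D := by exact_mod_cast hD1
  have e9 := SN_ge_one h (D^4) (Nat.one_le_pow _ _ hDn)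
  have e10 : ∑ T ∈ P.powerset.filter (fun T => ∏ p ∈ T, p ≤ K), ∏ p ∈ T, g p ≤
      2 + 2 * (Real.log K / Real.log D) := by
    have h1 := e7.trans e8
    exact le_of_mul_le_mul_left h1 (by linarith)
  have h4 : Real.log K = B * Real.log y := by
    rw [hK]; push_cast; rw [Real.log_pow]
  rw [h4] at e10
  have h5 : 1 ≤ Real.log y / Real.log D := by
    rw [le_div_iff₀ (by linarith)]; linarith
  have h6 : B * Real.log y / Real.log D = B * (Real.log y / Real.log D) := by ring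
  rw [h6] at e10
  calc Pi ≤ 2 * (2 + 2 * (B * (Real.log y / Real.log D))) := by linarith
    _ ≤ (4 + 4 * B) * (Real.log y / Real.log D) := by
      have : (0:ℝ) ≤ B := Nat.cast_nonneg B
      nlinarith

theorem sum_bound : ∃ C : ℝ, 0 < C ∧ ∀ (χ : ℕ → ℝ) (M : ℝ), RChar χ M → ∀ (D y : ℕ) (P : Finset ℕ),
    20 * M * (1 + Real.log D) ≤ D → D ≤ y → (∀ p ∈ P, p.Prime ∧ D^4 < p ∧ p ≤ y) →
    ∑ p ∈ P, (1 + χ p) / p ≤ Real.log (Real.log y / Real.log D) + 4 * ∑ p ∈ P, 1/(p:ℝ)^2 + C := by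
  obtain ⟨C, hC, h⟩ := prod_bound
  refine ⟨|Real.log C| + 1, by positivity, fun χ M hχ D y P hD hDy hP => ?_⟩
  have h1 := h χ M hχ D y P hD hDy hP
  have hM := hχ.M1
  have hD1 : (1:ℝ) ≤ D := by
    rcases Nat.eq_zero_or_pos D with h0 | h0
    · exfalso
      rw [h0] at hD
      simp at hD
      linarith
    · exact_mod_cast h0
  have hlD0 : 0 ≤ Real.log D := Real.log_nonneg hD1
  have hD20 : (20:ℝ) ≤ D := by nlinarith
  have hlD : 0 < Real.log D := Real.log_pos (by linarith)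
  have hly : 0 < Real.log y := Real.log_pos (by
    have : (D:ℝ) ≤ y := by exact_mod_cast hDy
    linarith)
  have hg0 : ∀ p ∈ P, 0 ≤ (1 + χ p) / p := by
    intro p _
    apply div_nonneg _ (Nat.cast_nonneg p)
    rcases hχ.val p with h1 | h1 | h1 <;> rw [h1] <;> norm_num
  have hgp : ∀ p ∈ P, (1 + χ p) / p ≤ 2 / p := by
    intro p _
    apply div_le_div_of_nonneg_right _ (Nat.cast_nonneg p)
    rcases hχ.val p with h1 | h1 | h1 <;> rw [h1] <;> norm_num
  have h2 : Real.log (∏ p ∈ P, (1 + (1 + χ p) / p)) ≤ Real.log (C * (Real.log y / Real.log D)) :=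
    Real.log_le_log (prod_pos fun p hp => by have := hg0 p hp; linarith) h1
  rw [Real.log_prod (fun p hp => by have := hg0 p hp; positivity),
    Real.log_mul hC.ne' (by positivity)] at h2
  have h3 : ∑ p ∈ P, ((1 + χ p) / p - 4 * (1/(p:ℝ)^2)) ≤ ∑ p ∈ P, Real.log (1 + (1 + χ p) / p) := by
    refine sum_le_sum fun p hp => ?_
    set x := (1 + χ p) / p with hx
    have hx0 := hg0 p hp
    have hx1 := hgp p hp
    have h4 := Real.one_sub_inv_le_log_of_pos (show 0 < 1 + x by linarith)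
    have h5 : x - x^2 ≤ 1 - (1 + x)⁻¹ := by
      have : 1 - (1+x)⁻¹ = x / (1 + x) := by
        have hne : (1:ℝ) + x ≠ 0 := by linarith
        rw [eq_div_iff hne, sub_mul, inv_mul_cancel₀ hne]; ring
      rw [this, le_div_iff₀ (by linarith)]
      nlinarith [pow_nonneg hx0 3]
    have h6 : x^2 ≤ 4 * (1/(p:ℝ)^2) := by
      have : x^2 ≤ (2/p)^2 := pow_le_pow_left₀ hx0 hx1 2
      have e : (2/(p:ℝ))^2 = 4 * (1/(p:ℝ)^2) := by ring
      linarith
    linarith
  rw [sum_sub_distrib, ← mul_sum] at h3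
  have := le_abs_self (Real.log C)
  linarith

end Pool.Agent.H24.UM
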