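import Mathlib
import Pool.Agent.H24.UM.Rankin
import Pool.Agent.H12.NonSquare

/-!
The Jacobi symbol `n ↦ J(E | n)` (`n` odd) is a real character with bound `4 |E|`.
-/

namespace Pool.Agent.H24.UM

open Finset NumberTheorySymbols

/-- `J(E | n)` for odd `n`, and `0` for even `n` -/
def jc (E : ℤ) (n : ℕ) : ℤ := if Odd n then J(E | n) else 0

/-- real version -/
noncomputable def jr (E : ℤ) (n : ℕ) : ℝ := (jc E n : ℝ)

lemma jc_zero (E : ℤ) : jc E 0 = 0 := by
  unfold jc; rw [if_neg (by simp)]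

lemma jc_one (E : ℤ) : jc E 1 = 1 := by
  unfold jc; rw [if_pos odd_one]; simp

lemma jc_mul (E : ℤ) (m n : ℕ) : jc E (m*n) = jc E m * jc E n := by
  unfold jc
  by_cases hm : Odd m
  · by_cases hn : Odd n
    · rw [if_pos (hm.mul hn), if_pos hm, if_pos hn]
      have : NeZero m := ⟨by rintro rfl; simp at hm⟩
      have : NeZero n := ⟨by rintro rfl; simp at hn⟩
      exact jacobiSym.mul_right E m n
    · rw [if_neg (fun h => hn (Nat.odd_mul.mp h).2), if_neg hn, mul_zero]
  · rw [if_neg (fun h => hm (Nat.odd_mul.mp h).1), if_neg hm, zero_mul]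

lemma jc_val (E : ℤ) (n : ℕ) : jc E n = 0 ∨ jc E n = 1 ∨ jc E n = -1 := by
  unfold jc
  split_ifs
  · exact jacobiSym.trichotomy E n
  · left; rfl

lemma jc_mod (E : ℤ) (n : ℕ) : jc E (n % (4 * E.natAbs)) = jc E n := by
  unfold jc
  have h2 : Odd (n % (4 * E.natAbs)) ↔ Odd n := by
    rw [Nat.odd_iff, Nat.odd_iff, Nat.mod_mod_of_dvd n ⟨2 * E.natAbs, by ring⟩]
  by_cases h : Odd n
  · rw [if_pos (h2.mpr h), if_pos h, ← jacobiSym.mod_right E h]
  · rw [if_neg (fun h' => h (h2.mp h')), if_neg h]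

lemma jc_period (E : ℤ) (n : ℕ) : jc E (n + 4 * E.natAbs) = jc E n := by
  rw [← jc_mod E (n + 4 * E.natAbs), Nat.add_mod_right, jc_mod]

/-- the sum over a period vanishes -/
lemma jc_sum (E : ℤ) (hE : ¬ IsSquare E) : ∑ i ∈ range (4 * E.natAbs), jc E i = 0 := by
  obtain ⟨b, hbo, hJ⟩ := Pool.Agent.H12.exists_b E hE
  have hE0 : E ≠ 0 := by rintro rfl; exact hE ⟨0, rfl⟩
  set q := 4 * E.natAbs with hq
  have hq0 : 0 < q := by
    have := Int.natAbs_pos.mpr hE0; omega
  have hcop : Nat.Coprime b q := by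
    rw [hq]
    refine Nat.Coprime.mul_right ?_ ?_
    · have : Nat.Coprime b (2^2) := Nat.Coprime.pow_right 2 (Nat.coprime_two_right.mpr hbo)
      simpa using this
    · by_contra hcon
      have : J(E | b) = 0 := by
        rw [jacobiSym.eq_zero_iff]
        refine ⟨by have := hbo.pos; omega, ?_⟩
        intro h
        apply hcon
        rw [Nat.coprime_comm]
        have h2 : E.gcd b = Nat.gcd E.natAbs b := by
          rw [Int.gcd_eq_natAbs_gcd_natAbs]; simp
        rw [h2] at h
        exact h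
      rw [this] at hJ; norm_num at hJ
  have hb1 : jc E b = -1 := by unfold jc; rw [if_pos hbo, hJ]
  have hbij : ∑ i ∈ range q, jc E ((b * i) % q) = ∑ i ∈ range q, jc E i := by
    have hinj : Set.InjOn (fun i => (b * i) % q) (range q : Finset ℕ) := by
      intro i hi i' hi' h
      rw [mem_coe, mem_range] at hi hi'
      have h1 : b * i ≡ b * i' [MOD q] := h
      have h2 := Nat.ModEq.cancel_left_of_coprime (by rw [Nat.gcd_comm]; exact hcop) h1
      exact Nat.ModEq.eq_of_lt_of_lt h2 hi hi'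
    have himg : (range q).image (fun i => (b * i) % q) = range q := by
      apply eq_of_subset_of_card_le
      · intro x hx
        rw [mem_image] at hx
        obtain ⟨i, -, rfl⟩ := hx
        rw [mem_range]; exact Nat.mod_lt _ hq0
      · rw [card_image_of_injOn hinj]
    conv_rhs => rw [← himg]
    rw [sum_image hinj]
  have h1 : ∑ i ∈ range q, jc E ((b * i) % q) = - ∑ i ∈ range q, jc E i := by
    rw [← sum_neg_distrib]
    refine sum_congr rfl fun i _ => ?_
    rw [hq, jc_mod, jc_mul, hb1]; ring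
  rw [hbij] at h1
  omega

lemma sum_shift (E : ℤ) (hE : ¬ IsSquare E) (c : ℕ) :
    ∑ i ∈ range (4 * E.natAbs), jc E (c + i) = 0 := by
  induction c with
  | zero => simpa using jc_sum E hE
  | succ c ih =>
    set q := 4 * E.natAbs with hq
    have h1 := sum_range_succ (fun i => jc E (c + i)) q
    have h2 := sum_range_succ' (fun i => jc E (c + i)) q
    rw [h1, ih] at h2
    have h3 : jc E (c + q) = jc E (c + 0) := by rw [hq, jc_period, add_zero]
    rw [h3] at h2
    have h4 : ∑ i ∈ range q, jc E (c + 1 + i) = ∑ i ∈ range q, jc E (c + (i + 1)) :=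
      sum_congr rfl fun i _ => by congr 1; ring
    rw [h4]
    linarith

lemma abs_sum_shift (E : ℤ) (hE : ¬ IsSquare E) (c : ℕ) :
    ∀ L : ℕ, |∑ i ∈ range L, jr E (c + i)| ≤ ((4 * E.natAbs : ℕ) : ℝ) := by
  intro L
  induction L using Nat.strong_induction_on with
  | _ L ih =>
    rcases lt_or_ge L (4 * E.natAbs) with h | h
    · refine (abs_sum_le_sum_abs _ _).trans ?_
      have h1 : ∀ i ∈ range L, |jr E (c + i)| ≤ 1 := by
        intro i _
        unfold jr
        rcases jc_val E (c + i) with h | h | h <;> rw [h] <;> norm_num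
      refine (sum_le_sum h1).trans ?_
      simp only [sum_const, card_range, nsmul_eq_mul, mul_one]
      exact_mod_cast h.le
    · obtain ⟨L', rfl⟩ := Nat.exists_eq_add_of_le' h
      rw [Finset.sum_range_add]
      have h2 := sum_shift E hE (c + L')
      have h3 : ∑ i ∈ range (4 * E.natAbs), jr E (c + (L' + i)) = 0 := by
        unfold jr
        have : ∑ i ∈ range (4 * E.natAbs), jc E (c + (L' + i)) = 0 := by
          rw [← h2]; exact sum_congr rfl fun i _ => by rw [add_assoc]
        exact_mod_cast this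
      rw [h3, add_zero]
      have hE0 : E ≠ 0 := by rintro rfl; exact hE ⟨0, rfl⟩
      have hq : 0 < 4 * E.natAbs := by
        have := Int.natAbs_pos.mpr hE0; omega
      exact ih L' (by omega)

theorem jr_rchar (E : ℤ) (hE : ¬ IsSquare E) : RChar (jr E) ((4 * E.natAbs : ℕ) : ℝ) := by
  refine ⟨?_, ?_, ?_, ?_, ?_, ?_⟩
  · unfold jr; rw [jc_zero]; simp
  · unfold jr; rw [jc_one]; simp
  · intro m n; unfold jr; rw [jc_mul]; push_cast; rfl
  · intro n
    unfold jr
    rcases jc_val E n with h | h | h <;> rw [h] <;> norm_num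
  · intro a b
    rw [Finset.sum_Ico_eq_sum_range]
    exact abs_sum_shift E hE a (b - a)
  · have hE0 : E ≠ 0 := by rintro rfl; exact hE ⟨0, rfl⟩
    have hq : 1 ≤ 4 * E.natAbs := by
      have := Int.natAbs_pos.mpr hE0; omega
    exact_mod_cast hq

/-- for primes: nonresidue iff `-1` -/
lemma jc_prime (E : ℤ) (p : ℕ) (hp : p.Prime) (hp2 : p ≠ 2) :
    jc E p = -1 ↔ ¬ IsSquare (E : ZMod p) := by
  have : Fact p.Prime := ⟨hp⟩
  unfold jc
  rw [if_pos (hp.odd_of_ne_two hp2), ZMod.nonsquare_iff_jacobiSym_eq_neg_one]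

end Pool.Agent.H24.UM
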