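import Mathlib
import Pool.Agent.H24.UM.Jac
import Pool.Agent.H70.SymDes.Scale

/-!
Mertens type estimates on the scales `2^(2^i)`.
-/

namespace Pool.Agent.H24.UM

open Finset Pool.Agent.H12 Pool.Agent.H70.SymDes NumberTheorySymbols

/-- sums over the primes below `2^J` -/
noncomputable def bS (J : ℕ) : ℝ := ∑ p ∈ Nat.primesBelow (2^J), Real.log ((p:ℕ):ℝ) / ((p:ℕ):ℝ)
noncomputable def aS (J : ℕ) : ℝ := ∑ p ∈ Nat.primesBelow (2^J), (1:ℝ) / ((p:ℕ):ℝ)

lemma bS_nonneg (J : ℕ) : 0 ≤ bS J := by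
  unfold bS
  refine sum_nonneg fun p hp => ?_
  exact div_nonneg (Real.log_natCast_nonneg p) (Nat.cast_nonneg p)

lemma step_S (J : ℕ) (hJ : 1 ≤ J) : aS (J+1) - aS J ≤ (bS (J+1) - bS J) / (J * Real.log 2) := by
  have hl2 := Real.log_two_gt_d9
  have hsub : Nat.primesBelow (2^J) ⊆ Nat.primesBelow (2^(J+1)) := by
    intro p hp
    rw [Nat.mem_primesBelow] at hp ⊢
    exact ⟨hp.1.trans_le (Nat.pow_le_pow_right (by norm_num) (by omega)), hp.2⟩
  have e1 : aS (J+1) - aS J = ∑ p ∈ Nat.primesBelow (2^(J+1)) \ Nat.primesBelow (2^J), (1:ℝ)/((p:ℕ):ℝ) := by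
    unfold aS
    rw [← sum_sdiff hsub]; ring
  have e2 : bS (J+1) - bS J =
      ∑ p ∈ Nat.primesBelow (2^(J+1)) \ Nat.primesBelow (2^J), Real.log ((p:ℕ):ℝ) / ((p:ℕ):ℝ) := by
    unfold bS
    rw [← sum_sdiff hsub]; ring
  rw [e1, e2, sum_div]
  refine sum_le_sum fun p hp => ?_
  rw [mem_sdiff, Nat.mem_primesBelow, Nat.mem_primesBelow] at hp
  obtain ⟨⟨h1, h2⟩, h3⟩ := hp
  have h4 : 2^J ≤ p := by
    by_contra hcon
    exact h3 ⟨by omega, h2⟩
  have hp0 : (0:ℝ) < p := by exact_mod_cast h2.pos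
  have hJ' : (0:ℝ) < J := by exact_mod_cast hJ
  have h5 : J * Real.log 2 ≤ Real.log p := by
    rw [← Real.log_pow]
    exact Real.log_le_log (by positivity) (by exact_mod_cast h4)
  rw [div_div, div_le_div_iff₀ hp0 (by positivity)]
  calc 1 * (p * (J * Real.log 2)) = p * (J * Real.log 2) := one_mul _
    _ ≤ p * Real.log p := mul_le_mul_of_nonneg_left h5 hp0.le
    _ = Real.log p * p := by ring

/-- primes below `2^J` -/
lemma sum_inv_sharp : ∃ C : ℝ, 0 ≤ C ∧ ∀ n : ℕ, aS (n+1) ≤ HH n + C := by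
  obtain ⟨C, hC, hm⟩ := mertens_primes
  have hl2 := Real.log_two_gt_d9
  have hl2' : 0 < Real.log 2 := by linarith
  have hbJ : ∀ J, bS J ≤ J * Real.log 2 + C := by
    intro J
    have := hm (2^J) (Nat.primesBelow (2^J)) Nat.one_le_two_pow (fun p hp => by
      rw [Nat.mem_primesBelow] at hp
      exact ⟨hp.2, hp.1.le⟩)
    unfold bS
    push_cast at this
    rw [Real.log_pow] at this
    exact this
  have key : ∀ n : ℕ, aS (n+1) ≤ bS (n+1) / (((n+1 : ℕ) : ℝ) * Real.log 2) +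
      (aS 1 + HH n + 2 * C * (1 - 1/((n+1 : ℕ) : ℝ))) := by
    intro n
    induction n with
    | zero =>
      have h1 := HH_nonneg 0
      have h2 : 0 ≤ bS (0+1) / (((0+1:ℕ):ℝ) * Real.log 2) := by
        have := bS_nonneg (0+1)
        positivity
      have h3 : 2 * C * (1 - 1/((0+1:ℕ):ℝ)) = 0 := by norm_num
      rw [h3]
      simp only [zero_add] at h2 ⊢
      linarith
    | succ n ih =>
      set J := n + 1 with hJ
      have h1 := step_S J (by omega)
      have hJ' : (0:ℝ) < J := by rw [hJ]; positivity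
      have h2 := hbJ (J+1)
      have h3 : HH J = HH n + 1/(J : ℝ) := by
        unfold HH
        have : Ioc 0 J = insert J (Ioc 0 n) := by
          ext x; rw [mem_insert, mem_Ioc, mem_Ioc]; omega
        rw [this, sum_insert (by rw [mem_Ioc]; omega)]
        ring
      have h4 : aS (J+1) ≤ bS (J+1) / (J * Real.log 2) +
          (aS 1 + HH n + 2 * C * (1 - 1/(J:ℝ))) := by
        have : (bS (J+1) - bS J) / (J * Real.log 2) = bS (J+1) / (J * Real.log 2) -
          bS J / (J * Real.log 2) := by ring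
        linarith
      refine h4.trans ?_
      have h5 : bS (J+1) / (J * Real.log 2) = bS (J+1) / (((J+1 : ℕ) : ℝ) * Real.log 2) +
          bS (J+1) / (J * (J+1) * Real.log 2) := by
        push_cast; field_simp
      have h6 : bS (J+1) / (J * (J+1) * Real.log 2) ≤
          1 / J + 2 * C * (1 / J - 1/((J+1 : ℕ) : ℝ)) := by
        have h7 : bS (J+1) / (J * (J+1) * Real.log 2) ≤
            (((J+1 : ℕ) : ℝ) * Real.log 2 + C) / (J * (J+1) * Real.log 2) :=
          div_le_div_of_nonneg_right h2 (by positivity)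
        refine h7.trans ?_
        have h8 : (((J+1 : ℕ) : ℝ) * Real.log 2 + C) / (J * (J+1) * Real.log 2) =
            1 / J + (C / Real.log 2) * (1 / (J * (J + 1))) := by
          push_cast; field_simp
        have h9 : 1 / (J:ℝ) - 1/((J+1 : ℕ) : ℝ) = 1 / (J * (J + 1)) := by
          push_cast; field_simp; ring
        rw [h8, h9]
        have h10 : C / Real.log 2 ≤ 2 * C := by
          rw [div_le_iff₀ hl2']
          nlinarith
        have h11 : 0 ≤ 1 / ((J:ℝ) * (J + 1)) := by positivity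
        have := mul_le_mul_of_nonneg_right h10 h11
        linarith
      have h12 : 2 * C * (1 - 1/((J+1 : ℕ) : ℝ)) = 2 * C * (1 - 1/J) +
        2 * C * (1 / J - 1/((J+1 : ℕ) : ℝ)) := by ring
      linarith
  have ha0 : 0 ≤ aS 1 := sum_nonneg fun p _ => by positivity
  refine ⟨1 + 2 * C + aS 1 + 2 * C, by positivity, fun n => ?_⟩
  have h1 := key n
  have hn : (0:ℝ) < ((n+1 : ℕ) : ℝ) := by positivity
  have h2 : bS (n+1) / (((n+1 : ℕ) : ℝ) * Real.log 2) ≤ 1 + 2 * C := by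
    rw [div_le_iff₀ (by positivity)]
    have h3 := hbJ (n+1)
    have h4 : (1:ℝ) ≤ ((n+1 : ℕ) : ℝ) := by push_cast; have : (0:ℝ) ≤ n := by positivity
                                            linarith
    nlinarith [mul_nonneg hC (show (0:ℝ) ≤ Real.log 2 - 1/2 by linarith),
      mul_nonneg (mul_nonneg hC (show (0:ℝ) ≤ ((n+1 : ℕ) : ℝ) - 1 by linarith)) hl2'.le]
  have h3 : 2 * C * (1 - 1/((n+1 : ℕ) : ℝ)) ≤ 2 * C := by
    have : 0 ≤ 1/((n+1 : ℕ) : ℝ) := by positivity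
    nlinarith
  linarith

/-- sharp upper bound for `SS` -/
lemma SS_sharp : ∃ C : ℝ, 0 ≤ C ∧ ∀ i : ℕ, SS i ≤ i * Real.log 2 + C := by
  obtain ⟨C, hC, h⟩ := sum_inv_sharp
  refine ⟨C + 1, by linarith, fun i => ?_⟩
  have h1 : SS i ≤ aS (2^i) := by
    unfold SS PP oddPrimes aS
    exact sum_le_sum_of_subset_of_nonneg (erase_subset _ _) fun p _ _ => by positivity
  obtain ⟨n, hn⟩ : ∃ n, 2^i = n + 1 := ⟨2^i - 1, by have := Nat.one_le_two_pow (n := i); omega⟩
  rw [hn] at h1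
  have h2 := h n
  have h3 : HH n ≤ 1 + i * Real.log 2 := by
    have h4 : HH n ≤ HH (2^i) := HH_mono (by omega)
    have h5 : HH (2^i) ≤ 1 + Real.log ((2^i : ℕ) : ℝ) := HH_le
    push_cast at h5
    rw [Real.log_pow] at h5
    linarith
  linarith

lemma PP_mono {i j : ℕ} (h : i ≤ j) : PP i ⊆ PP j := by
  intro p hp
  rw [mem_PP] at hp ⊢
  exact ⟨hp.1, hp.2.1.trans_le (Nat.pow_le_pow_right (by norm_num)
    (Nat.pow_le_pow_right (by norm_num) h)), hp.2.2⟩

lemma sum_sdiff_SS {i j : ℕ} (h : i ≤ j) :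
    ∑ p ∈ PP j \ PP i, (1:ℝ)/p = SS j - SS i := by
  unfold SS
  rw [← sum_sdiff (PP_mono h)]; ring

/-- the condition on the scale -/
def Adm (E : ℤ) (j : ℕ) : Prop :=
  20 * ((4 * E.natAbs : ℕ) : ℝ) * (1 + 2^j * Real.log 2) ≤ 2^(2^j)

/-- **uniform one-sided Mertens**, scale version -/
theorem uniform : ∃ C : ℝ, 0 ≤ C ∧ ∀ (E : ℤ) (i j : ℕ), ¬ IsSquare E → Adm E j → j + 2 ≤ i →
    ∑ p ∈ PP i \ PP (j+2), (1 + jr E p) / p ≤ ((i:ℝ) - j) * Real.log 2 + C := by
  obtain ⟨C, hC, h⟩ := sum_bound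
  refine ⟨4 + C, by linarith, fun E i j hE hadm hij => ?_⟩
  have h1 := h (jr E) ((4 * E.natAbs : ℕ) : ℝ) (jr_rchar E hE) (2^(2^j)) (2^(2^i))
    (PP i \ PP (j+2)) (by
      push_cast
      rw [Real.log_pow]
      unfold Adm at hadm
      push_cast at hadm ⊢
      exact hadm) (Nat.pow_le_pow_right (by norm_num) (Nat.pow_le_pow_right (by norm_num) (by omega)))
    (by
      intro p hp
      rw [mem_sdiff, mem_PP, mem_PP] at hp
      obtain ⟨⟨h2, h3, h4⟩, h5⟩ := hp
      have h6 : 2^(2^(j+2)) ≤ p := by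
        by_contra hcon
        exact h5 ⟨h2, by omega, h4⟩
      have h7 : (2^(2^j))^4 = 2^(2^(j+2)) := by
        rw [← pow_mul]; congr 1; rw [pow_add]; norm_num
      refine ⟨h4, ?_, h3.le⟩
      rw [h7]
      refine lt_of_le_of_ne h6 ?_
      intro h8
      rw [← h8] at h4
      have : ¬ (2^(2^(j+2))).Prime := by
        apply Nat.Prime.not_prime_pow
        have : 2^2 ≤ 2^(j+2) := Nat.pow_le_pow_right (by norm_num) (by omega)
        omega
      exact this h4)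
  have hl2 := Real.log_two_gt_d9
  have h2 : Real.log (((2^(2^i) : ℕ)) : ℝ) / Real.log (((2^(2^j) : ℕ)) : ℝ) = 2^i / 2^j := by
    push_cast
    rw [Real.log_pow, Real.log_pow]
    push_cast
    have : Real.log 2 ≠ 0 := by linarith
    field_simp
  rw [h2, Real.log_div (by positivity) (by positivity), Real.log_pow, Real.log_pow] at h1
  have h3 : ∑ p ∈ PP i \ PP (j+2), 1/(p:ℝ)^2 ≤ 1 :=
    (sum_le_sum_of_subset_of_nonneg sdiff_subset (fun p _ _ => by positivity)).trans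
      (sum_inv_sq_PP i)
  have e : (i:ℝ) * Real.log 2 - j * Real.log 2 = ((i:ℝ) - j) * Real.log 2 := by ring
  linarith

lemma jc_ne_zero (E : ℤ) (hE : E ≠ 0) (p : ℕ) (hp : p.Prime) (hp2 : p ≠ 2)
    (h : E.natAbs < p) : jc E p ≠ 0 := by
  unfold jc
  rw [if_pos (hp.odd_of_ne_two hp2)]
  intro h0
  rw [jacobiSym.eq_zero_iff] at h0
  apply h0.2
  rw [Int.gcd_eq_natAbs_gcd_natAbs]
  simp only [Int.natAbs_natCast]
  rw [← Nat.coprime_iff_gcd_eq_one, Nat.coprime_comm, Nat.Prime.coprime_iff_not_dvd hp]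
  intro hd
  have := Nat.le_of_dvd (Int.natAbs_pos.mpr hE) hd
  omega

lemma adm_lt {E : ℤ} {j : ℕ} (h : Adm E j) : E.natAbs < 2^(2^j) := by
  unfold Adm at h
  have hl2 := Real.log_two_gt_d9
  have h1 : (0:ℝ) ≤ 2^j * Real.log 2 := by positivity
  have h2 : ((4 * E.natAbs : ℕ) : ℝ) = 4 * (E.natAbs : ℝ) := by push_cast; rfl
  rw [h2] at h
  have h3 : (0:ℝ) ≤ E.natAbs := Nat.cast_nonneg _
  have h4 : (E.natAbs : ℝ) < 2^(2^j) := by
    rcases eq_or_lt_of_le h3 with h5 | h5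
    · rw [← h5]; positivity
    · nlinarith [mul_nonneg h3 h1]
  exact_mod_cast h4

/-- nonresidues between two scales -/
theorem nonres_lower : ∃ C : ℝ, 0 ≤ C ∧ ∀ (E : ℤ) (i j : ℕ), ¬ IsSquare E → Adm E j → j + 2 ≤ i →
    1/2 * ((i:ℝ) - j) * Real.log 2 - C ≤
      ∑ p ∈ (PP i \ PP (j+2)).filter (fun p => jc E p = -1), (1:ℝ)/p := by
  obtain ⟨C1, hC1, h1⟩ := uniform
  obtain ⟨C2, hC2, h2⟩ := SS_sharp
  have hl2 := Real.log_two_lt_d9
  have hl2' := Real.log_two_gt_d9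
  refine ⟨C1 + C2 + 5, by linarith, fun E i j hE hadm hij => ?_⟩
  have hE0 : E ≠ 0 := by rintro rfl; exact hE ⟨0, rfl⟩
  have e1 : ∑ p ∈ (PP i \ PP (j+2)).filter (fun p => jc E p = -1), (1:ℝ)/p =
      ∑ p ∈ PP i \ PP (j+2), ((1:ℝ)/p - 1/2 * ((1 + jr E p) / p)) := by
    rw [sum_filter]
    refine sum_congr rfl fun p hp => ?_
    rw [mem_sdiff, mem_PP, mem_PP] at hp
    obtain ⟨⟨h3, h4, h5⟩, h6⟩ := hp
    have h7 : 2^(2^(j+2)) ≤ p := by
      by_contra hcon
      exact h6 ⟨h3, by omega, h5⟩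
    have h8 : 2^(2^j) ≤ 2^(2^(j+2)) :=
      Nat.pow_le_pow_right (by norm_num) (Nat.pow_le_pow_right (by norm_num) (by omega))
    have h9 := adm_lt hadm
    have h10 := jc_ne_zero E hE0 p h5 h3 (by omega)
    unfold jr
    rcases jc_val E p with h | h | h
    · exact absurd h h10
    · rw [h, if_neg (by norm_num)]; push_cast; ring
    · rw [h, if_pos rfl]; push_cast; ring
  rw [e1, sum_sub_distrib, ← mul_sum, sum_sdiff_SS hij]
  have h3 := h1 E i j hE hadm hij
  have h4 := h2 (j+2)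
  have h5 := SS_ge i
  push_cast at h4
  nlinarith

end Pool.Agent.H24.UM
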