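import Mathlib
import Pool.Agent.H24.UM.Scales

/-!
Further Mertens type estimates: a fixed real character, general cutoffs, `∑ 1/(p log p)`.
-/

namespace Pool.Agent.H24.UM

open Finset Pool.Agent.H12 Pool.Agent.H70.SymDes NumberTheorySymbols

lemma jc_coprime (E : ℤ) (n : ℕ) (h : jc E n ≠ 0) : Nat.Coprime n (4 * E.natAbs) := by
  unfold jc at h
  split_ifs at h with hodd
  · have : NeZero n := ⟨by rintro rfl; simp at hodd⟩
    refine Nat.Coprime.mul_right ?_ ?_
    · have : Nat.Coprime n (2^2) := Nat.Coprime.pow_right 2 (Nat.coprime_two_right.mpr hodd)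
      simpa using this
    · by_contra hcon
      apply h
      rw [jacobiSym.eq_zero_iff]
      refine ⟨NeZero.ne n, fun h' => hcon ?_⟩
      rw [Int.gcd_eq_natAbs_gcd_natAbs] at h'
      simp only [Int.natAbs_natCast] at h'
      rw [Nat.coprime_comm]
      exact h'
  · exact absurd rfl h

/-- `∑ χ(p) log p / p` is bounded, `χ` fixed -/
lemma fixed_log (E : ℤ) (hE : ¬ IsSquare E) : ∃ C : ℝ, 0 ≤ C ∧ ∀ N : ℕ,
    |∑ p ∈ (Ioc 0 N).filter Nat.Prime, jr E p * (Real.log p / p)| ≤ C := by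
  classical
  have hE0 : E ≠ 0 := by rintro rfl; exact hE ⟨0, rfl⟩
  set q := 4 * E.natAbs with hq
  have hq0 : 0 < q := by
    have := Int.natAbs_pos.mpr hE0; omega
  have : NeZero q := ⟨hq0.ne'⟩
  have hex : ∀ a : ZMod q, ∃ C : ℝ, 0 ≤ C ∧ (IsUnit a → ∀ N : ℕ, 1 ≤ N →
    |∑ p ∈ (Ioc 0 N).filter (fun p : ℕ => p.Prime ∧ (p : ZMod q) = a), Real.log p / p -
      Real.log N / q.totient| ≤ C) := by
    intro a
    by_cases ha : IsUnit a
    · obtain ⟨C, hC, h⟩ := Pool.Agent.H41.SF.mertens_AP ha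
      exact ⟨C, hC, fun _ => h⟩
    · exact ⟨0, le_rfl, fun h => absurd h ha⟩
  choose C hC0 hC using hex
  refine ⟨∑ a : ZMod q, C a, sum_nonneg fun a _ => hC0 a, fun N => ?_⟩
  rcases Nat.eq_zero_or_pos N with hN | hN
  · subst hN
    simp only [Ioc_self, filter_empty, sum_empty, abs_zero]
    exact sum_nonneg fun a _ => hC0 a
  have hval : ∀ a : ZMod q, ∀ p : ℕ, (p : ZMod q) = a → jr E p = jr E a.val := by
    rintro a p rfl
    unfold jr
    rw [ZMod.val_natCast, hq, jc_mod]
  have e1 : ∑ p ∈ (Ioc 0 N).filter Nat.Prime, jr E p * (Real.log p / p) =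
      ∑ a : ZMod q, jr E a.val *
        (∑ p ∈ (Ioc 0 N).filter (fun p : ℕ => p.Prime ∧ (p : ZMod q) = a), Real.log p / p) := by
    rw [← sum_fiberwise_of_maps_to (s := (Ioc 0 N).filter Nat.Prime) (t := univ)
      (g := fun p : ℕ => (p : ZMod q)) (fun p _ => mem_univ _)]
    refine sum_congr rfl fun a _ => ?_
    rw [mul_sum, filter_filter]
    refine sum_congr rfl fun p hp => ?_
    rw [mem_filter] at hp
    rw [hval a p hp.2.2]
  have e2 : ∑ a : ZMod q, jr E a.val = 0 := by
    have h1 : ∑ a : ZMod q, jr E a.val = ∑ i ∈ range q, jr E i := by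
      refine (sum_nbij' (s := range q) (t := (univ : Finset (ZMod q)))
        (f := fun i : ℕ => jr E i) (g := fun a : ZMod q => jr E a.val)
        (fun i => (i : ZMod q)) (fun x => x.val) ?_ ?_ ?_ ?_ ?_).symm
      · intro a _; exact Finset.mem_univ _
      · intro a _; exact Finset.mem_range.2 (ZMod.val_lt a)
      · intro a ha; exact ZMod.val_cast_of_lt (Finset.mem_range.1 ha)
      · intro a _; exact ZMod.natCast_zmod_val a
      · intro a ha; rw [ZMod.val_cast_of_lt (Finset.mem_range.1 ha)]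
    rw [h1]
    unfold jr
    have := jc_sum E hE
    rw [← hq] at this
    exact_mod_cast this
  have e3 : ∑ a : ZMod q, jr E a.val *
        (∑ p ∈ (Ioc 0 N).filter (fun p : ℕ => p.Prime ∧ (p : ZMod q) = a), Real.log p / p) =
      ∑ a : ZMod q, jr E a.val *
        ((∑ p ∈ (Ioc 0 N).filter (fun p : ℕ => p.Prime ∧ (p : ZMod q) = a), Real.log p / p) -
          Real.log N / q.totient) := by
    have : ∑ a : ZMod q, jr E a.val *
        ((∑ p ∈ (Ioc 0 N).filter (fun p : ℕ => p.Prime ∧ (p : ZMod q) = a), Real.log p / p) -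
          Real.log N / q.totient) = ∑ a : ZMod q, jr E a.val *
        (∑ p ∈ (Ioc 0 N).filter (fun p : ℕ => p.Prime ∧ (p : ZMod q) = a), Real.log p / p) -
        (∑ a : ZMod q, jr E a.val) * (Real.log N / q.totient) := by
      rw [sum_mul, ← sum_sub_distrib]
      exact sum_congr rfl fun a _ => by ring
    rw [this, e2, zero_mul, sub_zero]
  rw [e1, e3]
  refine (abs_sum_le_sum_abs _ _).trans (sum_le_sum fun a _ => ?_)
  by_cases ha : jr E a.val = 0
  · rw [ha, zero_mul, abs_zero]; exact hC0 a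
  · have hu : IsUnit a := by
      have h1 : jc E a.val ≠ 0 := by
        intro h; apply ha; unfold jr; rw [h]; simp
      have h2 := jc_coprime E a.val h1
      rw [← hq] at h2
      rw [← ZMod.natCast_zmod_val a]
      exact (ZMod.isUnit_iff_coprime _ _).mpr h2
    rw [abs_mul]
    have h3 : |jr E a.val| ≤ 1 := (jr_rchar E hE).abs_le _
    calc |jr E a.val| * _ ≤ 1 * C a := mul_le_mul h3 (hC a hu N hN) (abs_nonneg _) (by norm_num)
      _ = C a := one_mul _

/-- `∑ χ(p)/p` is bounded, `χ` fixed -/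
lemma fixed_char (E : ℤ) (hE : ¬ IsSquare E) : ∃ C : ℝ, 0 ≤ C ∧ ∀ N : ℕ,
    |∑ p ∈ oddPrimes N, jr E p / p| ≤ C := by
  obtain ⟨C, hC, h⟩ := fixed_log E hE
  have hl3 : 1 ≤ Real.log 3 := by
    rw [Real.le_log_iff_exp_le (by norm_num)]
    have := Real.exp_one_lt_d9
    linarith
  refine ⟨C, hC, fun N => ?_⟩
  rcases le_or_gt N 3 with hN | hN
  · have : oddPrimes N = ∅ := by
      rw [eq_empty_iff_forall_notMem]
      intro p hp
      have := oddPrimes_subset N hp
      rw [mem_Icc] at this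
      omega
    rw [this]; simpa using hC
  set a : ℕ → ℝ := fun n => if n.Prime then jr E n * (Real.log n / n) else 0 with ha
  have ha2 : ∀ k, ∑ i ∈ Ico 3 k, a i = if 3 ≤ k then
      ∑ p ∈ (Ioc 0 (k-1)).filter Nat.Prime, jr E p * (Real.log p / p) else 0 := by
    intro k
    split_ifs with hk
    · rw [sum_filter]
      have h1 : Ioc 0 (k-1) = Ioc 0 2 ∪ Ico 3 k := by
        ext x; rw [mem_union, mem_Ioc, mem_Ioc, mem_Ico]; omega
      rw [h1, sum_union (by
        rw [disjoint_left]; intro x hx hx'; rw [mem_Ioc] at hx; rw [mem_Ico] at hx'; omega)]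
      have h2 : ∑ n ∈ Ioc 0 2, (if n.Prime then jr E n * (Real.log n / n) else 0) = 0 := by
        apply sum_eq_zero
        intro n hn
        rw [mem_Ioc] at hn
        have : n = 1 ∨ n = 2 := by omega
        rcases this with rfl | rfl
        · rw [if_neg Nat.not_prime_one]
        · have : jr E 2 = 0 := by unfold jr jc; rw [if_neg (by decide)]; simp
          rw [this]; simp
      rw [h2, zero_add]
    · rw [Ico_eq_empty (by omega), sum_empty]
  have hA : ∀ k, |∑ i ∈ Ico 3 k, a i| ≤ C := by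
    intro k
    rw [ha2 k]
    split_ifs
    · exact h _
    · simpa using hC
  have h1 := abel_bound a (fun n => 1 / Real.log n) 3 N C hN.le
    (by
      intro n hn _
      have hn0 : (3:ℝ) ≤ n := by exact_mod_cast hn
      have h2 : 0 < Real.log n := Real.log_pos (by linarith)
      apply one_div_le_one_div_of_le h2
      apply Real.log_le_log (by linarith)
      push_cast; linarith)
    (by
      have : 0 ≤ Real.log N := Real.log_natCast_nonneg N
      positivity) hA
  have h2 : ∑ i ∈ Ico 3 N, 1 / Real.log i * a i = ∑ p ∈ oddPrimes N, jr E p / p := by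
    have h3 : oddPrimes N = (Ico 3 N).filter Nat.Prime := by
      ext p
      rw [mem_oddPrimes, mem_filter, mem_Ico]
      constructor
      · rintro ⟨h4, h5, h6⟩
        have := h6.two_le
        exact ⟨by omega, h6⟩
      · rintro ⟨h4, h5⟩
        exact ⟨by omega, h4.2, h5⟩
    rw [h3, sum_filter]
    refine sum_congr rfl fun n hn => ?_
    rw [mem_Ico] at hn
    rw [ha]
    simp only
    split_ifs with hp
    · have hn0 : (3:ℝ) ≤ n := by exact_mod_cast hn.1
      have h2 : 0 < Real.log n := Real.log_pos (by linarith)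
      field_simp
    · rw [mul_zero]
  rw [h2] at h1
  refine h1.trans ?_
  push_cast
  calc C * (1 / Real.log 3) ≤ C * 1 := by
        apply mul_le_mul_of_nonneg_left _ hC
        rw [div_le_one (by linarith)]; exact hl3
    _ = C := mul_one _

/-- lower bound for `∑ 1/p` with a general cutoff -/
lemma exp_odd_le (N : ℕ) (hN : 3 ≤ N) :
    Real.exp (-∑ p ∈ oddPrimes N, (1:ℝ)/p) ≤ 6 / Real.log N := by
  have h2 : (2:ℕ) ∈ N.primesBelow := by rw [Nat.mem_primesBelow]; exact ⟨by omega, Nat.prime_two⟩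
  have h3 : ∏ p ∈ oddPrimes N, (1 - 1/(p:ℝ)) ≤ 2 / Real.log N := by
    have h4 := prod_primes_le N (by omega)
    rw [← mul_prod_erase _ _ h2] at h4
    change (1 - 1/((2:ℕ):ℝ)) * ∏ p ∈ oddPrimes N, (1 - 1/(p:ℝ)) ≤ _ at h4
    have e : (2:ℝ) / Real.log N = 2 * (1 / Real.log N) := by ring
    rw [e]
    have e2 : (1 - 1/((2:ℕ):ℝ)) = 1/2 := by norm_num
    rw [e2] at h4
    linarith
  set S := ∑ p ∈ oddPrimes N, (1:ℝ)/p with hS
  have hge : ∀ p ∈ oddPrimes N, (3:ℝ) ≤ p := by
    intro p hp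
    have := oddPrimes_subset N hp
    rw [mem_Icc] at this
    exact_mod_cast this.1
  have h6 : Real.exp (-S - 1) ≤ ∏ p ∈ oddPrimes N, (1 - 1/(p:ℝ)) := by
    have h7 : Real.exp (-S - 1) ≤ Real.exp (∑ p ∈ oddPrimes N, (-(1/(p:ℝ)) - 1/(p:ℝ)^2)) := by
      rw [Real.exp_le_exp, sum_sub_distrib, sum_neg_distrib]
      have := sum_inv_sq_oddPrimes N
      linarith
    refine h7.trans ?_
    rw [Real.exp_sum]
    refine prod_le_prod (fun p _ => (Real.exp_pos _).le) fun p hp => ?_
    have hp3 := hge p hp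
    have hx0 : (0:ℝ) < 1/(p:ℝ) := by positivity
    have hx1 : 1/(p:ℝ) ≤ 1/3 := one_div_le_one_div_of_le (by norm_num) hp3
    set x := 1/(p:ℝ) with hx
    have e3 : 1/(p:ℝ)^2 = x^2 := by rw [hx]; ring
    rw [e3]
    have h8 : 1 ≤ (1 - x) * Real.exp (x + x^2) := by
      have h12 := Real.quadratic_le_exp_of_nonneg (show 0 ≤ x + x^2 by positivity)
      have h13 : (1 - x) * (1 + (x + x^2) + (x + x^2)^2/2) ≤ (1 - x) * Real.exp (x + x^2) :=
        mul_le_mul_of_nonneg_left h12 (by linarith)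
      have h14 : 1 ≤ (1 - x) * (1 + (x + x^2) + (x + x^2)^2/2) := by
        have : (1 - x) * (1 + (x + x^2) + (x + x^2)^2/2) =
          1 + x^2 * (1/2 - x/2 - x^2/2 - x^3/2) := by ring
        rw [this]
        have : 0 ≤ 1/2 - x/2 - x^2/2 - x^3/2 := by nlinarith [pow_pos hx0 2, pow_pos hx0 3]
        have := mul_nonneg (sq_nonneg x) this
        linarith
      linarith
    have h9 : -x - x^2 = -(x + x^2) := by ring
    rw [h9, Real.exp_neg, inv_le_iff_one_le_mul₀ (Real.exp_pos _)]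
    linarith
  have h7 : Real.exp (-S) = Real.exp (-S - 1) * Real.exp 1 := by
    rw [← Real.exp_add]; congr 1; ring
  rw [h7]
  have h8 := Real.exp_one_lt_d9
  have hlog : 0 < Real.log N := Real.log_pos (by
    have : (3:ℝ) ≤ N := by exact_mod_cast hN
    linarith)
  calc Real.exp (-S - 1) * Real.exp 1 ≤ (2 / Real.log N) * 3 := by
        apply mul_le_mul (h6.trans h3) (by linarith) (Real.exp_pos 1).le (by positivity)
    _ = 6 / Real.log N := by ring

lemma loglog_lower (N : ℕ) (hN : 3 ≤ N) :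
    Real.log (Real.log N) - 2 ≤ ∑ p ∈ oddPrimes N, (1:ℝ)/p := by
  have h := exp_odd_le N hN
  have hlog : 0 < Real.log N := Real.log_pos (by
    have : (3:ℝ) ≤ N := by exact_mod_cast hN
    linarith)
  have h1 : Real.log (Real.exp (-∑ p ∈ oddPrimes N, (1:ℝ)/p)) ≤ Real.log (6 / Real.log N) :=
    Real.log_le_log (Real.exp_pos _) h
  rw [Real.log_exp, Real.log_div (by norm_num) hlog.ne'] at h1
  have h2 : Real.log 6 ≤ 2 := by
    rw [Real.log_le_iff_le_exp (by norm_num)]
    have h3 := Real.exp_one_gt_d9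
    have h4 : Real.exp 2 = Real.exp 1 * Real.exp 1 := by rw [← Real.exp_add]; norm_num
    rw [h4]; nlinarith
  linarith

/-- `∑ 1/(p log p)` converges -/
lemma sum_plog : ∃ C : ℝ, 0 ≤ C ∧ ∀ i : ℕ, ∑ p ∈ PP i, 1 / ((p:ℝ) * Real.log p) ≤ C := by
  have hl2 := Real.log_two_gt_d9
  refine ⟨12, by norm_num, fun i => ?_⟩
  set J := 2^i with hJ
  have h1 : ∀ p ∈ PP i, Nat.log 2 (p-1) ∈ Icc 1 J := by
    intro p hp
    have hp3 := PP_ge hp
    rw [mem_PP] at hp
    rw [mem_Icc]
    constructor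
    · exact Nat.log_pos (by norm_num) (by omega)
    · have : Nat.log 2 (p-1) < J+1 := Nat.log_lt_of_lt_pow (by omega) (by
        have h9 : 2^J ≤ 2^(J+1) := Nat.pow_le_pow_right (by norm_num) (by omega)
        have h10 : p < 2^J := by rw [hJ]; exact hp.2.1
        omega)
      omega
  rw [← sum_fiberwise_of_maps_to h1]
  have h2 : ∀ j ∈ Icc 1 J, ∑ p ∈ (PP i).filter (fun p => Nat.log 2 (p-1) = j),
      1 / ((p:ℝ) * Real.log p) ≤ 6 * (1 / (j:ℝ)^2) := by
    intro j hj
    rw [mem_Icc] at hj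
    have hj' : (0:ℝ) < j := by exact_mod_cast hj.1
    have h3 : ∑ p ∈ (PP i).filter (fun p => Nat.log 2 (p-1) = j), 1 / ((p:ℝ) * Real.log p) ≤
        ∑ p ∈ (PP i).filter (fun p => Nat.log 2 (p-1) = j), (1/(j * Real.log 2)) * ((1:ℝ)/p) := by
      refine sum_le_sum fun p hp => ?_
      rw [mem_filter] at hp
      obtain ⟨hp, hpj⟩ := hp
      have hp3 := PP_ge hp
      have hp0 : (0:ℝ) < p := by exact_mod_cast (by omega : 0 < p)
      have h4 : 2^j ≤ p := by
        have : 2^(Nat.log 2 (p-1)) ≤ p - 1 := Nat.pow_log_le_self 2 (by omega)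
        rw [hpj] at this
        omega
      have h5 : j * Real.log 2 ≤ Real.log p := by
        rw [← Real.log_pow]
        exact Real.log_le_log (by positivity) (by exact_mod_cast h4)
      rw [← one_div_mul_one_div_rev]
      apply mul_le_mul_of_nonneg_right _ (by positivity)
      exact one_div_le_one_div_of_le (by positivity) h5
    refine h3.trans ?_
    rw [← mul_sum]
    have h4 : ∑ p ∈ (PP i).filter (fun p => Nat.log 2 (p-1) = j), (1:ℝ)/p ≤ 4 / j := by
      refine le_trans ?_ (dyadic_primes j hj.1)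
      refine sum_le_sum_of_subset_of_nonneg ?_ (fun p _ _ => by positivity)
      intro p hp
      rw [mem_filter] at hp
      obtain ⟨hp, rfl⟩ := hp
      have hp3 := PP_ge hp
      rw [mem_PP] at hp
      rw [mem_filter, mem_Ioc]
      refine ⟨⟨?_, ?_⟩, hp.2.2⟩
      · have : 2^(Nat.log 2 (p-1)) ≤ p - 1 := Nat.pow_log_le_self 2 (by omega)
        omega
      · have : p - 1 < 2^(Nat.log 2 (p-1) + 1) := Nat.lt_pow_succ_log_self (by norm_num) _
        omega
    have h5 : 1/(j * Real.log 2) ≤ (3/2) / j := by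
      rw [div_le_div_iff₀ (by positivity) hj']
      nlinarith
    calc 1/(j * Real.log 2) * ∑ p ∈ (PP i).filter (fun p => Nat.log 2 (p-1) = j), (1:ℝ)/p ≤
          ((3/2) / j) * (4 / j) := mul_le_mul h5 h4 (sum_nonneg fun _ _ => by positivity) (by positivity)
      _ = 6 * (1 / (j:ℝ)^2) := by field_simp; norm_num
  refine (sum_le_sum h2).trans ?_
  rw [← mul_sum]
  have h3 : ∀ J : ℕ, 1 ≤ J → ∑ j ∈ Icc 1 J, 1 / ((j:ℕ):ℝ)^2 ≤ 2 - 1/((J:ℕ):ℝ) := by
    intro J hJ
    induction J, hJ using Nat.le_induction with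
    | base => norm_num
    | succ J hJ ih =>
      rw [sum_Icc_succ_top (by omega)]
      have hJ' : (0:ℝ) < (J:ℝ) := by exact_mod_cast hJ
      have : 1 / (((J+1 : ℕ)):ℝ)^2 ≤ 1/(J:ℝ) - 1/((J+1 : ℕ):ℝ) := by
        have e : 1/(J:ℝ) - 1/((J+1 : ℕ):ℝ) = 1 / (J * (J+1)) := by push_cast; field_simp; ring
        rw [e]
        apply one_div_le_one_div_of_le (by positivity)
        push_cast; nlinarith
      linarith
  have h4 := h3 J (by rw [hJ]; exact Nat.one_le_two_pow)
  have h5 : (0:ℝ) ≤ 1 / (J:ℝ) := by positivity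
  linarith

end Pool.Agent.H24.UM
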